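import Mathlib
import Pool.Agent.H12.NimSq

set_option autoImplicit false

namespace Pool.Agent.Results.MP_68925f_co.Table

/-- The nim multiplication table is not 2-regular. -/
theorem result (mul : ℕ → ℕ → ℕ)
    (ha : ∀ a n : ℕ, n < 2 ^ 2 ^ a → mul (2 ^ 2 ^ a) n = 2 ^ 2 ^ a * n)
    (hb : ∀ a : ℕ, mul (2 ^ 2 ^ a) (2 ^ 2 ^ a) = 3 * 2 ^ 2 ^ a / 2)
    (hassoc : ∀ x y z : ℕ, mul (mul x y) z = mul x (mul y z))
    (hcomm : ∀ x y : ℕ, mul x y = mul y x)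
    (hdist : ∀ x y z : ℕ, mul x (y ^^^ z) = mul x y ^^^ mul x z) :
    ¬ (Submodule.span ℤ {f : ℕ × ℕ → ℤ | ∃ e r r' : ℕ, r < 2 ^ e ∧ r' < 2 ^ e ∧
        f = fun p => (mul (2 ^ e * p.1 + r) (2 ^ e * p.2 + r') : ℤ)}).FG := by
  intro h
  apply Pool.Agent.H12.NimSq.not_fg ⟨ha, hb, hassoc, hcomm, hdist⟩ _ _
    (h.map (LinearMap.funLeft ℤ ℤ (fun n : ℕ => (n, n))))
  intro e
  exact ⟨_, Submodule.subset_span ⟨e, 0, 0, by positivity, by positivity, rfl⟩, rfl⟩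

end Pool.Agent.Results.MP_68925f_co.Table
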